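import Mathlib

/-!
Homomorphisms of abelian groups up to isomorphism, and the number of generators of kernel and
cokernel of direct sums.
-/

set_option autoImplicit false

namespace Pool.Agent.H49.PDG

universe u

/-- A homomorphism of abelian groups. -/
structure Arr where
  /-- source -/
  H : Type u
  /-- target -/
  L : Type u
  [hH : AddCommGroup H]
  [hL : AddCommGroup L]
  /-- the homomorphism -/
  f : H →+ L

attribute [instance] Arr.hH Arr.hL

namespace Arr

/-- Two homomorphisms are isomorphic. -/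
def Iso (a b : Arr.{u}) : Prop :=
  ∃ (e : a.H ≃+ b.H) (e' : a.L ≃+ b.L), ∀ x, e' (a.f x) = b.f (e x)

/-- Direct sum of two homomorphisms. -/
def prod (a b : Arr.{u}) : Arr.{u} where
  H := a.H × b.H
  L := a.L × b.L
  f := a.f.prodMap b.f

/-- Direct sum of `n` copies of a homomorphism. -/
def pow (a : Arr.{u}) (n : ℕ) : Arr.{u} where
  H := Fin n → a.H
  L := Fin n → a.L
  f := a.f.compLeft (Fin n)

/-- Direct sum of copies of a homomorphism indexed by `ι`. -/
def pi (a : Arr.{u}) (ι : Type) : Arr.{u} where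
  H := ι → a.H
  L := ι → a.L
  f := a.f.compLeft ι

/-- `b` is a retract (direct summand) of `a`. -/
def Retr (a b : Arr.{u}) : Prop :=
  ∃ (u : a.H →+ b.H) (v : a.L →+ b.L) (s : b.H →+ a.H) (t : b.L →+ a.L),
    (∀ x, v (a.f x) = b.f (u x)) ∧ (∀ y, t (b.f y) = a.f (s y)) ∧
    (∀ y, u (s y) = y) ∧ ∀ y, v (t y) = y

theorem Iso.symm {a b : Arr.{u}} (h : Iso a b) : Iso b a := by
  obtain ⟨e, e', h⟩ := h
  refine ⟨e.symm, e'.symm, fun x => ?_⟩
  rw [AddEquiv.symm_apply_eq, h, AddEquiv.apply_symm_apply]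

theorem Iso.retr {a b : Arr.{u}} (h : Iso a b) : Retr a b := by
  obtain ⟨e, e', h'⟩ := h
  refine ⟨e.toAddMonoidHom, e'.toAddMonoidHom, e.symm.toAddMonoidHom, e'.symm.toAddMonoidHom,
    fun x => h' x, fun y => ?_, fun _ => ?_, fun _ => ?_⟩
  · simp only [AddEquiv.toAddMonoidHom_eq_coe, AddMonoidHom.coe_coe]
    rw [AddEquiv.symm_apply_eq, h', AddEquiv.apply_symm_apply]
  · simp
  · simp

theorem Retr.refl (a : Arr.{u}) : Retr a a :=
  ⟨AddMonoidHom.id _, AddMonoidHom.id _, AddMonoidHom.id _, AddMonoidHom.id _,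
    fun _ => rfl, fun _ => rfl, fun _ => rfl, fun _ => rfl⟩

theorem Retr.trans {a b c : Arr.{u}} (h : Retr a b) (h' : Retr b c) : Retr a c := by
  obtain ⟨u, v, s, t, h1, h2, h3, h4⟩ := h
  obtain ⟨u', v', s', t', h1', h2', h3', h4'⟩ := h'
  refine ⟨u'.comp u, v'.comp v, s.comp s', t.comp t', fun x => ?_, fun y => ?_, fun y => ?_,
    fun y => ?_⟩
  · simp only [AddMonoidHom.comp_apply]
    rw [h1, h1']
  · simp only [AddMonoidHom.comp_apply]
    rw [h2', h2]
  · simp only [AddMonoidHom.comp_apply]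
    rw [h3, h3']
  · simp only [AddMonoidHom.comp_apply]
    rw [h4, h4']

theorem Retr.prod {a b a' b' : Arr.{u}} (h : Retr a a') (h' : Retr b b') :
    Retr (a.prod b) (a'.prod b') := by
  obtain ⟨u, v, s, t, h1, h2, h3, h4⟩ := h
  obtain ⟨u', v', s', t', h1', h2', h3', h4'⟩ := h'
  refine ⟨u.prodMap u', v.prodMap v', s.prodMap s', t.prodMap t', fun x => ?_, fun y => ?_,
    fun y => ?_, fun y => ?_⟩
  · exact Prod.ext (h1 x.1) (h1' x.2)
  · exact Prod.ext (h2 y.1) (h2' y.2)
  · exact Prod.ext (h3 y.1) (h3' y.2)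
  · exact Prod.ext (h4 y.1) (h4' y.2)

theorem retr_fst (a b : Arr.{u}) : Retr (a.prod b) a :=
  ⟨AddMonoidHom.fst _ _, AddMonoidHom.fst _ _, AddMonoidHom.inl _ _, AddMonoidHom.inl _ _,
    fun _ => rfl, fun y => Prod.ext rfl (map_zero b.f).symm, fun _ => rfl, fun _ => rfl⟩

theorem retr_snd (a b : Arr.{u}) : Retr (a.prod b) b :=
  ⟨AddMonoidHom.snd _ _, AddMonoidHom.snd _ _, AddMonoidHom.inr _ _, AddMonoidHom.inr _ _,
    fun _ => rfl, fun y => Prod.ext (map_zero a.f).symm rfl, fun _ => rfl, fun _ => rfl⟩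

theorem Retr.pi {a b : Arr.{u}} (h : Retr a b) (ι : Type) : Retr (a.pi ι) (b.pi ι) := by
  obtain ⟨u, v, s, t, h1, h2, h3, h4⟩ := h
  refine ⟨u.compLeft ι, v.compLeft ι, s.compLeft ι, t.compLeft ι, fun x => ?_, fun y => ?_,
    fun y => ?_, fun y => ?_⟩
  · exact funext fun i => h1 (x i)
  · exact funext fun i => h2 (y i)
  · exact funext fun i => h3 (y i)
  · exact funext fun i => h4 (y i)

theorem retr_pi_sum (a : Arr.{u}) (ι κ : Type) :
    Retr ((a.pi ι).prod (a.pi κ)) (a.pi (ι ⊕ κ)) := by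
  refine ⟨
    { toFun := fun x => Sum.elim x.1 x.2
      map_zero' := funext fun i => by cases i <;> rfl
      map_add' := fun x y => funext fun i => by cases i <;> rfl },
    { toFun := fun x => Sum.elim x.1 x.2
      map_zero' := funext fun i => by cases i <;> rfl
      map_add' := fun x y => funext fun i => by cases i <;> rfl },
    { toFun := fun x => (fun i => x (Sum.inl i), fun i => x (Sum.inr i))
      map_zero' := rfl
      map_add' := fun _ _ => rfl },
    { toFun := fun x => (fun i => x (Sum.inl i), fun i => x (Sum.inr i))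
      map_zero' := rfl
      map_add' := fun _ _ => rfl }, ?_, ?_, ?_, ?_⟩
  · intro x
    exact funext fun i => by cases i <;> rfl
  · intro y
    rfl
  · intro y
    exact funext fun i => by cases i <;> rfl
  · intro y
    exact funext fun i => by cases i <;> rfl

theorem retr_pi_pi (a : Arr.{u}) (ι κ : Type) :
    Retr ((a.pi ι).pi κ) (a.pi (κ × ι)) := by
  refine ⟨
    { toFun := fun x p => x p.1 p.2
      map_zero' := rfl
      map_add' := fun _ _ => rfl },
    { toFun := fun x p => x p.1 p.2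
      map_zero' := rfl
      map_add' := fun _ _ => rfl },
    { toFun := fun x i j => x (i, j)
      map_zero' := rfl
      map_add' := fun _ _ => rfl },
    { toFun := fun x i j => x (i, j)
      map_zero' := rfl
      map_add' := fun _ _ => rfl }, ?_, ?_, ?_, ?_⟩
  · intro x
    rfl
  · intro y
    rfl
  · intro y
    rfl
  · intro y
    rfl

theorem retr_pi_unit (a : Arr.{u}) : Retr a (a.pi Unit) := by
  refine ⟨
    { toFun := fun x _ => x
      map_zero' := rfl
      map_add' := fun _ _ => rfl },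
    { toFun := fun x _ => x
      map_zero' := rfl
      map_add' := fun _ _ => rfl },
    { toFun := fun x => x ()
      map_zero' := rfl
      map_add' := fun _ _ => rfl },
    { toFun := fun x => x ()
      map_zero' := rfl
      map_add' := fun _ _ => rfl }, ?_, ?_, ?_, ?_⟩
  · intro x
    rfl
  · intro y
    rfl
  · intro y
    rfl
  · intro y
    rfl

end Arr

/-- The abelian group `M` is generated by at most `B` elements. -/
def Gen (M : Type u) [AddCommGroup M] (B : ℕ) : Prop :=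
  ∃ S : Finset M, S.card ≤ B ∧ AddSubgroup.closure (S : Set M) = ⊤

/-- Kernel and cokernel are generated by at most `B` elements each. -/
def Small (a : Arr.{u}) (B : ℕ) : Prop := Gen a.f.ker B ∧ Gen (a.L ⧸ a.f.range) B

theorem Gen.of_surj {M N : Type u} [AddCommGroup M] [AddCommGroup N] {B : ℕ} (h : Gen M B)
    (f : M →+ N) (hf : Function.Surjective f) : Gen N B := by
  classical
  obtain ⟨S, hS, hc⟩ := h
  refine ⟨S.image f, Finset.card_image_le.trans hS, ?_⟩
  rw [Finset.coe_image, ← AddMonoidHom.map_closure, hc, AddSubgroup.map_top_of_surjective f hf]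

/-- A nonzero abelian group needs at least `n` generators for its `n`-th power. -/
theorem subsingleton_of_gen {M : Type u} [AddCommGroup M] {ι : Type} [Fintype ι] {B : ℕ}
    (h : Gen (ι → M) B) (hB : B < Fintype.card ι) : Subsingleton M := by
  classical
  by_contra hne
  rw [not_subsingleton_iff_nontrivial] at hne
  have hι : Nonempty ι := Fintype.card_pos_iff.1 (by omega)
  obtain ⟨i₀⟩ := hι
  -- `M` is finitely generated
  have hM : Gen M B := h.of_surj (Pi.evalAddMonoidHom (fun _ : ι => M) i₀)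
    (fun m => ⟨fun _ => m, rfl⟩)
  have hfin : Module.Finite ℤ M := by
    obtain ⟨S, _, hc⟩ := hM
    refine ⟨⟨S, ?_⟩⟩
    rw [eq_top_iff]
    intro x _
    have hx : x ∈ AddSubgroup.closure (S : Set M) := by rw [hc]; trivial
    rw [← Submodule.span_int_eq_addSubgroupClosure] at hx
    exact hx
  obtain ⟨N, hN, -⟩ := (eq_top_or_exists_le_coatom (⊥ : Submodule ℤ M)).resolve_left bot_ne_top
  have hsimple : IsSimpleModule ℤ (M ⧸ N) := isSimpleModule_iff_isCoatom.2 hN
  obtain ⟨I, hI, ⟨e⟩⟩ := isSimpleModule_iff_quot_maximal.1 hsimple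
  let _ : Field (ℤ ⧸ I) := Ideal.Quotient.field I
  -- surjection onto `(ℤ / I) ^ ι`
  let φ : (ι → M) →+ (ι → ℤ ⧸ I) :=
    { toFun := fun v i => e (N.mkQ (v i))
      map_zero' := by ext i; simp
      map_add' := by intro v w; ext i; simp }
  have hφ : Function.Surjective φ := by
    intro v
    have hs : ∀ i, ∃ m : M, e (N.mkQ m) = v i := by
      intro i
      obtain ⟨q, hq⟩ := e.surjective (v i)
      obtain ⟨m, hm⟩ := N.mkQ_surjective q
      exact ⟨m, by rw [hm, hq]⟩
    choose w hw using hs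
    exact ⟨w, funext hw⟩
  obtain ⟨S, hS, hc⟩ : ∃ S : Finset (ι → ℤ ⧸ I), S.card ≤ B ∧
      AddSubgroup.closure (S : Set (ι → ℤ ⧸ I)) = ⊤ := by
    obtain ⟨S, hS, hc⟩ := h
    refine ⟨S.image φ, Finset.card_image_le.trans hS, ?_⟩
    rw [Finset.coe_image, ← AddMonoidHom.map_closure, hc, AddSubgroup.map_top_of_surjective φ hφ]
  have hspan : Submodule.span (ℤ ⧸ I) (S : Set (ι → ℤ ⧸ I)) = ⊤ := by
    rw [eq_top_iff]
    intro x _
    have hx : x ∈ AddSubgroup.closure (S : Set (ι → ℤ ⧸ I)) := by rw [hc]; trivial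
    have hle : AddSubgroup.closure (S : Set (ι → ℤ ⧸ I)) ≤
        (Submodule.span (ℤ ⧸ I) (S : Set (ι → ℤ ⧸ I))).toAddSubgroup := by
      rw [AddSubgroup.closure_le]
      intro y hy
      exact Submodule.subset_span hy
    exact hle hx
  have h1 := finrank_span_finset_le_card (R := ℤ ⧸ I) S
  unfold Set.finrank at h1
  rw [hspan, finrank_top, Module.finrank_fintype_fun_eq_card] at h1
  omega

/-- `a` has at least `r` direct summands isomorphic to `b`. -/
def Dom (a b : Arr.{u}) (r : ℕ) : Prop :=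
  ∃ (ι : Type) (_ : Fintype ι), r ≤ Fintype.card ι ∧ a.Retr (b.pi ι)

theorem Dom.refl (a : Arr.{u}) : Dom a a 1 :=
  ⟨Unit, inferInstance, le_refl _, Arr.retr_pi_unit a⟩

theorem Dom.mono {a b : Arr.{u}} {r s : ℕ} (h : Dom a b r) (hs : s ≤ r) : Dom a b s := by
  obtain ⟨ι, hι, h1, h2⟩ := h
  exact ⟨ι, hι, hs.trans h1, h2⟩

theorem Dom.of_retr {a a' b : Arr.{u}} {r : ℕ} (h : a.Retr a') (h' : Dom a' b r) : Dom a b r := by
  obtain ⟨ι, hι, h1, h2⟩ := h'
  exact ⟨ι, hι, h1, h.trans h2⟩

theorem Dom.retr_right {a b b' : Arr.{u}} {r : ℕ} (h : Dom a b r) (h' : b.Retr b') :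
    Dom a b' r := by
  obtain ⟨ι, hι, h1, h2⟩ := h
  exact ⟨ι, hι, h1, h2.trans (h'.pi ι)⟩

theorem Dom.zero (a b : Arr.{u}) : Dom a b 0 := by
  refine ⟨Empty, inferInstance, Nat.zero_le _, ?_⟩
  refine ⟨0, 0, 0, 0, ?_, ?_, ?_, ?_⟩
  · intro x
    exact funext fun i => i.elim
  · intro y
    simp
  · intro y
    exact funext fun i => i.elim
  · intro y
    exact funext fun i => i.elim

theorem Dom.prod {a b c : Arr.{u}} {r s : ℕ} (h : Dom a c r) (h' : Dom b c s) :
    Dom (a.prod b) c (r + s) := by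
  obtain ⟨ι, hι, h1, h2⟩ := h
  obtain ⟨κ, hκ, h1', h2'⟩ := h'
  refine ⟨ι ⊕ κ, inferInstance, ?_, (h2.prod h2').trans (Arr.retr_pi_sum c ι κ)⟩
  rw [Fintype.card_sum]
  omega

theorem Dom.pow {a c : Arr.{u}} {r : ℕ} (h : Dom a c r) (n : ℕ) : Dom (a.pow n) c (n * r) := by
  obtain ⟨ι, hι, h1, h2⟩ := h
  refine ⟨Fin n × ι, inferInstance, ?_, (h2.pi (Fin n)).trans (Arr.retr_pi_pi c ι (Fin n))⟩
  rw [Fintype.card_prod, Fintype.card_fin]
  exact Nat.mul_le_mul_left _ h1

theorem Dom.bijective {a b : Arr.{u}} {r B : ℕ} (h : Dom a b r) (hs : Small a B) (hB : B < r) :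
    Function.Bijective b.f := by
  obtain ⟨ι, _, hr, u, v, s, t, h1, h2, h3, h4⟩ := h
  -- kernel
  let φ : a.f.ker →+ (ι → b.f.ker) :=
    { toFun := fun x i => ⟨u x.1 i, by
        have h5 := h1 x.1
        rw [(AddMonoidHom.mem_ker).1 x.2, map_zero] at h5
        exact (congrFun h5 i).symm⟩
      map_zero' := funext fun i => Subtype.ext (congrFun (map_zero u) i)
      map_add' := fun x y => funext fun i => Subtype.ext (congrFun (map_add u x.1 y.1) i) }
  have hφ : Function.Surjective φ := by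
    intro y
    let y' : (b.pi ι).H := fun i => (y i).1
    have hy' : (b.pi ι).f y' = 0 := funext fun i => (AddMonoidHom.mem_ker).1 (y i).2
    refine ⟨⟨s y', ?_⟩, ?_⟩
    · rw [AddMonoidHom.mem_ker, ← h2, hy', map_zero]
    · exact funext fun i => Subtype.ext (congrFun (h3 y') i)
  let ψ : (a.L ⧸ a.f.range) →+ (ι → (b.L ⧸ b.f.range)) :=
    QuotientAddGroup.lift a.f.range (((QuotientAddGroup.mk' b.f.range).compLeft ι).comp v) (by
        rintro x ⟨z, rfl⟩
        rw [AddMonoidHom.mem_ker]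
        refine funext fun i => ?_
        change ((v (a.f z) i : b.L) : b.L ⧸ b.f.range) = 0
        rw [h1]
        exact (QuotientAddGroup.eq_zero_iff _).2 ⟨u z i, rfl⟩)
  have hψ : Function.Surjective ψ := by
    intro y
    have hs : ∀ i, ∃ m : b.L, (m : b.L ⧸ b.f.range) = y i := fun i =>
      QuotientAddGroup.mk_surjective (y i)
    choose w hw using hs
    let w' : (b.pi ι).L := w
    refine ⟨((t w' : a.L) : a.L ⧸ a.f.range), ?_⟩
    refine funext fun i => ?_
    change ((v (t w') i : b.L) : b.L ⧸ b.f.range) = y i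
    rw [h4]
    exact hw i
  have h1 : Subsingleton b.f.ker := subsingleton_of_gen (hs.1.of_surj φ hφ) (by omega)
  have h2 : Subsingleton (b.L ⧸ b.f.range) :=
    subsingleton_of_gen (hs.2.of_surj ψ hψ) (by omega)
  constructor
  · rw [← AddMonoidHom.ker_eq_bot_iff, eq_bot_iff]
    intro x hx
    have := Subsingleton.elim (⟨x, hx⟩ : b.f.ker) 0
    simpa using congrArg Subtype.val this
  · rw [← AddMonoidHom.range_eq_top]
    exact QuotientAddGroup.subsingleton_iff.1 h2

theorem small_of_bijective {a : Arr.{u}} (h : Function.Bijective a.f) (B : ℕ) : Small a B := by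
  have h1 : Subsingleton a.f.ker := by
    rw [(AddMonoidHom.ker_eq_bot_iff a.f).2 h.1]
    infer_instance
  have h2 : Subsingleton (a.L ⧸ a.f.range) := by
    rw [QuotientAddGroup.subsingleton_iff]
    exact AddMonoidHom.range_eq_top.2 h.2
  constructor
  · refine ⟨∅, by simp, ?_⟩
    rw [eq_top_iff]
    intro x _
    rw [Subsingleton.elim x 0]
    exact zero_mem _
  · refine ⟨∅, by simp, ?_⟩
    rw [eq_top_iff]
    intro x _
    rw [Subsingleton.elim x 0]
    exact zero_mem _

end Pool.Agent.H49.PDG
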