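import Pool.Agent.H49.PDG.Arr

/-!
MP_c13a79_gt: the assembly map of Poincaré duality groups. If it is not an isomorphism for some
Poincaré duality group, then in all large dimensions kernel or cokernel of the assembly map in
degree zero need arbitrarily many generators; and for one group `π` one sees from the number of
generators of kernel and cokernel for `π × ℤ ^ m` in degree zero whether it is an isomorphism.
-/

set_option autoImplicit false

namespace Pool.Agent.Results.MP_c13a79_gt.UniformBound

open Pool.Agent.H49.PDG Filter Finset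

universe u

/-- A group with a character to `{1,-1}`. -/
structure OGrp where
  /-- the group -/
  G : Type
  [grp : Group G]
  /-- the character -/
  w : G →* ℤˣ

attribute [instance] OGrp.grp

/-- Product with a group `K`; the character is that of the first factor. -/
def OGrp.prod (X : OGrp) (K : Type) [Group K] : OGrp :=
  ⟨X.G × K, X.w.comp (MonoidHom.fst X.G K)⟩

/-- The word `[a₁,b₁]⋯[a_g,b_g]`. -/
def surfRel (g : ℕ) : FreeGroup (Fin g × Bool) :=
  (List.ofFn fun i : Fin g => FreeGroup.of (i, false) * FreeGroup.of (i, true) *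
    (FreeGroup.of (i, false))⁻¹ * (FreeGroup.of (i, true))⁻¹).prod

/-- The fundamental group of the closed orientable surface of genus `g`. -/
abbrev Surf (g : ℕ) : Type := PresentedGroup ({surfRel g} : Set (FreeGroup (Fin g × Bool)))

/-- `X × ℤ ^ m`. -/
def OGrp.zpow (X : OGrp) : ℕ → OGrp
  | 0 => X
  | m + 1 => (OGrp.zpow X m).prod (Multiplicative ℤ)

/-- `∑ C(m, j)` over `j ≡ s mod 4`. -/
def cnt (m : ℕ) (s : ZMod 4) : ℕ := ∑ j ∈ range (m + 1), if (j : ZMod 4) = s then m.choose j else 0

theorem cnt_zero (s : ZMod 4) : cnt 0 s = if s = 0 then 1 else 0 := by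
  unfold cnt
  simp [eq_comm]

theorem cnt_succ (m : ℕ) (s : ZMod 4) : cnt (m + 1) s = cnt m s + cnt m (s - 1) := by
  have h1 : cnt m s = (if (0 : ZMod 4) = s then 1 else 0) +
      ∑ j ∈ range (m + 1), if ((j + 1 : ℕ) : ZMod 4) = s then m.choose (j + 1) else 0 := by
    have h2 : cnt m s = ∑ j ∈ range (m + 2), if (j : ZMod 4) = s then m.choose j else 0 := by
      rw [Finset.sum_range_succ, Nat.choose_succ_self]
      unfold cnt
      simp
    rw [h2, Finset.sum_range_succ', add_comm]
    simp
  have h3 : cnt m (s - 1) =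
      ∑ j ∈ range (m + 1), if ((j + 1 : ℕ) : ZMod 4) = s then m.choose j else 0 := by
    unfold cnt
    refine Finset.sum_congr rfl fun j _ => ?_
    have h4 : ((j : ZMod 4) = s - 1) ↔ (((j + 1 : ℕ) : ZMod 4) = s) := by
      push_cast
      rw [eq_sub_iff_add_eq]
    simp only [h4]
  rw [h1, h3, add_assoc, ← Finset.sum_add_distrib]
  unfold cnt
  rw [Finset.sum_range_succ', add_comm]
  have h5 : (if ((0 : ℕ) : ZMod 4) = s then (m + 1).choose 0 else 0) =
      if (0 : ZMod 4) = s then 1 else 0 := by simp
  rw [h5]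
  congr 1
  refine Finset.sum_congr rfl fun j _ => ?_
  split_ifs
  · rw [Nat.choose_succ_succ, add_comm]
  · rfl

theorem cnt_pos {m : ℕ} (hm : 3 ≤ m) (s : ZMod 4) : 0 < cnt m s := by
  have hs : (s.val : ZMod 4) = s := ZMod.natCast_zmod_val s
  have hlt : s.val < 4 := ZMod.val_lt s
  have h1 : (if ((s.val : ℕ) : ZMod 4) = s then m.choose s.val else 0) ≤ cnt m s :=
    Finset.single_le_sum (f := fun j : ℕ => if (j : ZMod 4) = s then m.choose j else 0)
      (fun _ _ => Nat.zero_le _) (Finset.mem_range.2 (by omega))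
  rw [if_pos hs] at h1
  have h2 : 0 < m.choose s.val := Nat.choose_pos (by omega)
  omega

/-- Let `PD n X` be a property of a group with orientation character (being a Poincaré duality
group of dimension `n`) which passes to products with `ℤ` and with surface groups, and let
`A X k` be homomorphisms of abelian groups (the assembly map in degree `k`), periodic in `k` of
period four and split for products with `ℤ` and with surface groups. -/
theorem result (PD : ℕ → OGrp → Prop) (A : OGrp → ℤ → Arr.{u})
    (hZ : ∀ n X, PD n X → PD (n + 1) (X.prod (Multiplicative ℤ)))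
    (hS : ∀ n X g, 1 ≤ g → PD n X → PD (n + 2) (X.prod (Surf g)))
    (per : ∀ n X, PD n X → ∀ k, (A X (k + 4)).Iso (A X k))
    (splitZ : ∀ n X, PD n X → ∀ k,
      (A (X.prod (Multiplicative ℤ)) k).Iso ((A X k).prod (A X (k - 1))))
    (splitS : ∀ n X g, 1 ≤ g → PD n X → ∀ k,
      (A (X.prod (Surf g)) k).Iso
        ((A X k).prod (((A X (k - 1)).pow (2 * g)).prod (A X (k - 2))))) :
    (∀ n X, PD n X → ((∀ k, Function.Bijective (A X k).f) ↔
      ∃ m, ∀ s : ZMod 4, ∃ B,
        B < (∑ j ∈ range (m + 1), if (j : ZMod 4) = s then m.choose j else 0) ∧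
        Small (A (X.zpow m) 0) B)) ∧
    (∀ n X, PD n X → ((∀ k, Function.Bijective (A X k).f) ↔
      ∃ g B, 1 ≤ g ∧ B < 2 * g ∧ Small (A ((X.zpow 3).prod (Surf g)) 0) B)) ∧
    ((∀ n X, PD n X → ∀ k, Function.Bijective (A X k).f) ↔
      ∃ᶠ n in atTop, ∃ B, ∀ X, PD n X → Small (A X 0) B) := by
  -- bijectivity passes to isomorphic homomorphisms and products
  have hiso : ∀ a b : Arr.{u}, a.Iso b → Function.Bijective b.f → Function.Bijective a.f := by
    rintro a b ⟨e, e', h⟩ hb
    have h1 : ⇑a.f = e'.symm ∘ b.f ∘ e := by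
      funext x
      rw [Function.comp_apply, Function.comp_apply, AddEquiv.eq_symm_apply, h]
    rw [h1]
    exact e'.symm.bijective.comp (hb.comp e.bijective)
  have hPDz : ∀ n X, PD n X → ∀ m, PD (n + m) (X.zpow m) := by
    intro n X hX m
    induction m with
    | zero => exact hX
    | succ m ih => exact hZ _ _ ih
  have hbz : ∀ n X, PD n X → (∀ k, Function.Bijective (A X k).f) → ∀ m k,
      Function.Bijective (A (X.zpow m) k).f := by
    intro n X hX hb m
    induction m with
    | zero => exact hb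
    | succ m ih =>
      intro k
      refine hiso _ _ (splitZ _ _ (hPDz n X hX m) k) ?_
      exact (ih k).prodMap (ih (k - 1))
  have hper : ∀ n X, PD n X → ∀ (t k : ℤ), (A X (k + 4 * t)).Retr (A X k) := by
    intro n X hX t
    induction t with
    | zero =>
      intro k
      rw [mul_zero, add_zero]
      exact Arr.Retr.refl _
    | succ t ih =>
      intro k
      have h1 := (per n X hX (k + 4 * t)).retr
      have h2 : k + 4 * ((t : ℤ) + 1) = k + 4 * t + 4 := by ring
      rw [h2]
      exact h1.trans (ih k)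
    | pred t ih =>
      intro k
      have h1 := (per n X hX (k + 4 * (-(t : ℤ) - 1))).symm.retr
      have h2 : k + 4 * (-(t : ℤ) - 1) + 4 = k + 4 * (-(t : ℤ)) := by ring
      rw [h2] at h1
      have h3 := ih (k - 4)
      have h4 : k - 4 + 4 * (-(t : ℤ)) = k + 4 * (-(t : ℤ) - 1) := by ring
      rw [h4] at h3
      have h5 := (per n X hX (k - 4)).symm.retr
      rw [sub_add_cancel] at h5
      exact h3.trans (h5)
  have hdom : ∀ n X, PD n X → ∀ (r : ℤ) (m : ℕ) (k : ℤ),
      Dom (A (X.zpow m) k) (A X r) (cnt m ((k - r : ℤ) : ZMod 4)) := by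
    intro n X hX r m
    induction m with
    | zero =>
      intro k
      rw [cnt_zero]
      split_ifs with h
      · rw [ZMod.intCast_zmod_eq_zero_iff_dvd] at h
        obtain ⟨t, ht⟩ := h
        have h1 : k = r + 4 * t := by
          have : (k - r : ℤ) = 4 * t := by exact_mod_cast ht
          linarith
        rw [h1]
        exact Dom.of_retr (hper n X hX t r) (Dom.refl _)
      · exact Dom.zero _ _
    | succ m ih =>
      intro k
      rw [cnt_succ]
      refine Dom.of_retr (splitZ _ _ (hPDz n X hX m) k).retr ?_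
      refine Dom.prod (ih k) ?_
      have h1 := ih (k - 1)
      have h2 : (((k - r : ℤ) : ZMod 4)) - 1 = ((k - 1 - r : ℤ) : ZMod 4) := by
        push_cast
        ring
      rw [h2]
      exact h1
  have hkey : ∀ n X, PD n X → ∀ (r : ℤ) (m : ℕ), 3 ≤ m → ∀ g, 1 ≤ g →
      Dom (A ((X.zpow m).prod (Surf g)) 0) (A X r) (2 * g) := by
    intro n X hX r m hm g hg
    have h1 := hdom n X hX r m (0 - 1)
    have h2 := (h1.mono (s := 1) (cnt_pos hm _)).pow (2 * g)
    have h3 := h2.prod (Dom.zero (A (X.zpow m) (0 - 2)) (A X r))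
    have h4 := (Dom.zero (A (X.zpow m) 0) (A X r)).prod h3
    exact (Dom.of_retr (splitS (n + m) (X.zpow m) g hg (hPDz n X hX m) 0).retr h4).mono
      (by omega)
  refine ⟨fun n X hX => ⟨fun hb => ⟨3, fun s => ⟨0, ?_, ?_⟩⟩, ?_⟩,
    fun n X hX => ⟨fun hb => ⟨1, 0, le_refl _, by norm_num, ?_⟩, ?_⟩, ⟨?_, ?_⟩⟩
  · exact cnt_pos (le_refl 3) s
  · exact small_of_bijective (hbz n X hX hb 3 0) 0
  · rintro ⟨m, hm⟩ k
    obtain ⟨B, hB, hs⟩ := hm ((0 - k : ℤ) : ZMod 4)
    exact (hdom n X hX k m 0).bijective hs hB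
  · have hb' := hbz n X hX hb 3
    refine small_of_bijective ?_ 0
    refine hiso _ _ (splitS _ _ 1 (le_refl _) (hPDz n X hX 3) 0) ?_
    have hpow : Function.Bijective ((A (X.zpow 3) (0 - 1)).pow (2 * 1)).f := ?_
    · exact (hb' 0).prodMap (hpow.prodMap (hb' (0 - 2)))
    constructor
    · intro x y hxy
      exact funext fun i => (hb' (0 - 1)).1 (congrFun hxy i)
    · intro y
      choose x hx using fun i => (hb' (0 - 1)).2 (y i)
      exact ⟨x, funext hx⟩
  · rintro ⟨g, B, hg, hB, hs⟩ k
    exact (hkey n X hX k 3 (le_refl 3) g hg).bijective hs hB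
  · intro hall
    refine Eventually.frequently (Eventually.of_forall fun n => ⟨0, fun X hX => ?_⟩)
    exact small_of_bijective (hall n X hX 0) 0
  · intro hfreq n X hX k
    obtain ⟨N, hN, B, hB⟩ := (frequently_atTop.1 hfreq) (n + 5)
    obtain ⟨m, rfl⟩ : ∃ m, N = n + m + 2 := ⟨N - n - 2, by omega⟩
    have hm : 3 ≤ m := by omega
    have hPD := hS (n + m) (X.zpow m) (B + 1) (by omega) (hPDz n X hX m)
    exact (hkey n X hX k m hm (B + 1) (by omega)).bijective (hB _ hPD) (by omega)

end Pool.Agent.Results.MP_c13a79_gt.UniformBound
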